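import Pool.Agent.Run7.h892.Off

/-!
Let `k` be a field, `W` a finite subgroup of `GL n k` whose order is invertible in `k`, `S` the
polynomial ring in `n` variables of cohomological degree `2` and `R` its ring of `W`-invariants,
with zero differential. If `S` is free over `R` at every prime ideal of `R` other than the ideal
of the invariants without constant term, then the thick subcategory of the derived category of
DG `R`-modules generated by `S` consists of all DG modules with finitely generated cohomology.
The hypothesis holds if no nonidentity element of `W` fixes a nonzero vector.
-/

universe u

namespace Pool.Agent.Results.MP_8a48ad_gt.IsolatedGeneration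

open Run7.h892

/-- Isolated non-free locus implies generation by the polynomial ring, and groups without fixed
vectors have an isolated non-free locus. -/
theorem result {k : Type u} [Field k] {n : ℕ}
    (W : Subgroup (Matrix.GeneralLinearGroup (Fin n) k)) [Finite W]
    (hW : (Nat.card W : k) ≠ 0) :
    (FreeOff (invariants W) (MvPolynomial (Fin n) k) (RingHom.ker (aug W)) →
      ∀ M : DGMod (invariants W) (invGr W), Thick (fun N => N = polyMod W) M ↔ FG M) ∧
    ((∀ w ∈ W, w ≠ 1 → ∀ v : Fin n → k,
        (w : Matrix (Fin n) (Fin n) k).mulVec v = v → v = 0) →
      FreeOff (invariants W) (MvPolynomial (Fin n) k) (RingHom.ker (aug W))) :=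
  ⟨fun hiso M => iso_generation W hW hiso M, freeOff_of_fixedPointFree W⟩

end Pool.Agent.Results.MP_8a48ad_gt.IsolatedGeneration
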